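import Pool.Agent.W23.KT.Defs
import Pool.Agent.W74.SG.BLF

/-!
KT project, task BLK (helper363), first part: the diagonal and the prime side for systems of linear
forms (adapted from `W74/SG/BLFa.lean`).
-/

set_option autoImplicit false

namespace Pool.Agent.W363.KT

open Finset
open Pool.Agent.H442R2
open Pool.Agent.H442R2.KF
open Pool.Agent.W23.SG
open Pool.Agent.W23.KT

/-! ### bounds for `k^ω(d)` -/

/-- the bound for `k^ω(d)` for rough moduli -/
noncomputable def Ck (k : ℕ) (ε : ℝ) : ℝ := ((k : ℝ) + 1) ^ ⌈1 / ε⌉₊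

theorem Ck_one (k : ℕ) (ε : ℝ) : 1 ≤ Ck k ε := by
  unfold Ck
  exact one_le_pow₀ (by linarith [(Nat.cast_nonneg k : (0 : ℝ) ≤ k)])

theorem omega_le {N d : ℕ} {ε : ℝ} (hε : 0 < ε) (hN : 2 ≤ N) (hd : d ≤ N)
    (h : BX.Rough ((N : ℝ) ^ ε) d) : d.primeFactors.card ≤ ⌈1 / ε⌉₊ := by
  have hNr : (1 : ℝ) < N := by exact_mod_cast (by omega : 1 < N)
  have hN0 : (0 : ℝ) < N := by linarith
  have hd0 : d ≠ 0 := by
    have := h.1
    omega
  have h1 : ((N : ℝ) ^ ε) ^ d.primeFactors.card ≤ ∏ p ∈ d.primeFactors, (p : ℝ) := by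
    rw [← Finset.prod_const]
    apply Finset.prod_le_prod
    · intro p _
      exact Real.rpow_nonneg hN0.le _
    · intro p hp
      exact (h.2 p (Nat.prime_of_mem_primeFactors hp) (Nat.dvd_of_mem_primeFactors hp)).le
  have h2 : ∏ p ∈ d.primeFactors, (p : ℝ) ≤ N := by
    have h3 : ∏ p ∈ d.primeFactors, p ≤ d :=
      Nat.le_of_dvd (Nat.pos_of_ne_zero hd0) (Nat.prod_primeFactors_dvd d)
    have h4 : ∏ p ∈ d.primeFactors, p ≤ N := h3.trans hd
    have h5 : ((∏ p ∈ d.primeFactors, p : ℕ) : ℝ) ≤ N := by exact_mod_cast h4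
    rwa [Nat.cast_prod] at h5
  have h3 : ((N : ℝ) ^ ε) ^ d.primeFactors.card = (N : ℝ) ^ (ε * d.primeFactors.card) := by
    rw [← Real.rpow_natCast, ← Real.rpow_mul hN0.le]
  rw [h3] at h1
  have h4 : (N : ℝ) ^ (ε * d.primeFactors.card) ≤ (N : ℝ) ^ (1 : ℝ) := by
    rw [Real.rpow_one]
    exact h1.trans h2
  have h5 : ε * d.primeFactors.card ≤ 1 := (Real.rpow_le_rpow_left_iff hNr).1 h4
  have h6 : (d.primeFactors.card : ℝ) ≤ 1 / ε := by
    rw [le_div_iff₀ hε]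
    linarith
  exact_mod_cast h6.trans (Nat.le_ceil _)

theorem kw_nonneg (k d : ℕ) : 0 ≤ kw k d := by
  unfold kw
  positivity

theorem kw_le {k N d : ℕ} {ε : ℝ} (hε : 0 < ε) (hN : 2 ≤ N) (hd : d ≤ N)
    (h : BX.Rough ((N : ℝ) ^ ε) d) : kw k d ≤ Ck k ε := by
  unfold kw Ck
  have hk : (0 : ℝ) ≤ k := Nat.cast_nonneg k
  calc (k : ℝ) ^ d.primeFactors.card ≤ ((k : ℝ) + 1) ^ d.primeFactors.card :=
        pow_le_pow_left₀ hk (by linarith) _
    _ ≤ ((k : ℝ) + 1) ^ ⌈1 / ε⌉₊ :=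
        pow_le_pow_right₀ (by linarith) (omega_le hε hN hd h)

theorem Mo.rough {y : ℝ} {X : ℕ} {S : Finset (ℤ × ℕ)} {d : ℕ} (h : Mo y X S d) :
    BX.Rough y d := ⟨h.1, fun p hp hpd => (h.2.2.2 p hp hpd).1⟩

theorem dk_bd {k N d : ℕ} {ε : ℝ} (hε : 0 < ε) (hN : 2 ≤ N) (hd : d ≤ N)
    (h : BX.Rough ((N : ℝ) ^ ε) d) (m : ℤ) : |dk k d m| ≤ Ck k ε := by
  unfold dk
  have hd1 : (1 : ℝ) ≤ d := by
    have := h.1
    exact_mod_cast this.le
  have h0 := kw_nonneg k d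
  have h1 := kw_le (k := k) hε hN hd h
  have h2 : 0 ≤ kw k d / d := by positivity
  have h3 : kw k d / d ≤ Ck k ε := (div_le_self h0 hd1).trans h1
  have h4 := Ck_one k ε
  rw [abs_le]
  split_ifs <;> constructor <;> linarith

/-! ### the functions `RK`, `rK` -/

theorem RK_bd {k N X : ℕ} {ε : ℝ} (hε : 0 < ε) (hN : 2 ≤ N) (hX : X ≤ N) {S : Finset (ℤ × ℕ)}
    {c : ℕ → ℝ} (hc : CofK ((N : ℝ) ^ ε) X S c) (n : ℤ) : |RK k c X S n| ≤ Ck k ε * X := by
  unfold RK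
  refine (Finset.abs_sum_le_sum_abs _ _).trans ?_
  have h4 := Ck_one k ε
  calc ∑ d ∈ Icc 1 X, |c d * dk k d (Fp S n)| ≤ ∑ d ∈ Icc 1 X, Ck k ε := by
        apply Finset.sum_le_sum
        intro d hd
        by_cases h0 : c d = 0
        · rw [h0, zero_mul, abs_zero]
          linarith
        · rw [abs_mul]
          have h1 := hc.bd d
          have h2 := dk_bd (k := k) hε hN ((Finset.mem_Icc.1 hd).2.trans hX)
            (Mo.rough (hc.supp d h0)) (Fp S n)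
          calc |c d| * |dk k d (Fp S n)| ≤ 1 * Ck k ε :=
                mul_le_mul h1 h2 (abs_nonneg _) zero_le_one
            _ = Ck k ε := one_mul _
    _ = Ck k ε * X := by
        rw [Finset.sum_const, Nat.card_Icc, nsmul_eq_mul, Nat.add_sub_cancel]
        ring

theorem rK_bd {k N X : ℕ} {ε : ℝ} (hε : 0 < ε) (hN : 2 ≤ N) (hX : X ≤ N) {S : Finset (ℤ × ℕ)}
    {c : ℕ → ℝ} (hc : CofK ((N : ℝ) ^ ε) X S c) (n : ℤ) : |rK k c X S n| ≤ Ck k ε * X := by
  unfold rK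
  split_ifs
  · rw [abs_zero]
    have h4 := Ck_one k ε
    positivity
  · exact RK_bd hε hN hX hc n

theorem summ_rK {k N z X : ℕ} {ε : ℝ} (hε : 0 < ε) (hN : 2 ≤ N) (hX : X ≤ N) (lam : ℕ → ℝ)
    (hl : ∀ q, |lam q| ≤ 1) {S S' : Finset (ℤ × ℕ)} {c c' : ℕ → ℝ}
    (hc : CofK ((N : ℝ) ^ ε) X S c) (hc' : CofK ((N : ℝ) ^ ε) X S' c') :
    Summable (fun n : ℤ => Wt N n * BX.nuS lam z n * (rK k c X S n * rK k c' X S' n)) := by
  have hs := (BX.TaskDI.sum_nuS (lam := lam) (z := z) hl N (by omega)).mul_right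
    ((Ck k ε * X) * (Ck k ε * X))
  refine Summable.of_norm_bounded hs ?_
  intro n
  have h1 : 0 ≤ Wt N n * BX.nuS lam z n :=
    mul_nonneg (Real.exp_pos _).le (BX.TaskDI.nuS_nonneg _ _ _)
  rw [Real.norm_eq_abs, abs_mul, abs_of_nonneg h1, abs_mul]
  have h2 := rK_bd (k := k) hε hN hX hc n
  have h3 := rK_bd (k := k) hε hN hX hc' n
  have h4 := Ck_one k ε
  exact mul_le_mul_of_nonneg_left
    (mul_le_mul h2 h3 (abs_nonneg _) (by positivity)) h1

/-! ### the diagonal -/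

/-- the diagonal terms -/
theorem diK (hPBK : St_PBK) (hGS : BX.St_GS) (hGW : BX.St_GW) : ∀ (k M : ℕ) (ε : ℝ), 0 < ε →
    ∃ (N₀ : ℕ) (C : ℝ), 0 < C ∧ ∀ (N z X : ℕ), N₀ ≤ N → X ≤ N →
    2 ≤ z → (z : ℝ) ≤ (N : ℝ) ^ (1 / 4 : ℝ) → ∀ lam : ℕ → ℝ, BX.SW z lam →
    ∀ S : Finset (ℤ × ℕ), Sys k M N S → ∀ c : ℕ → ℝ, CofK ((N : ℝ) ^ ε) X S c →
    ∑' n : ℤ, Wt N n * BX.nuS lam z n * (rK k c X S n * rK k c X S n) ≤ C * N / Real.log z := by
  intro k M ε hε
  obtain ⟨N₁, C₁, hC₁, hP⟩ := hPBK k M ε hε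
  obtain ⟨N₂, hG⟩ := hGW
  refine ⟨max (max N₁ N₂) 2, 12 * C₁ ^ 2, by positivity, ?_⟩
  intro N z X hN hX hz hzN lam hlam S hS c hc
  have hN1 : N₁ ≤ N := (le_max_left _ _).trans ((le_max_left _ _).trans hN)
  have hN2 : N₂ ≤ N := (le_max_right _ _).trans ((le_max_left _ _).trans hN)
  have hN4 : 2 ≤ N := (le_max_right _ _).trans hN
  have hN3 : 1 ≤ N := by omega
  have hNr : (1 : ℝ) ≤ N := by exact_mod_cast hN3
  have hsq : ∀ n : ℤ, rK k c X S n * rK k c X S n ≤ C₁ ^ 2 * (1 + |(n : ℝ)| / N) := by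
    intro n
    have h1 := (hP N X hN1 hX S hS).2 c hc n
    have h0 : 0 ≤ |(n : ℝ)| / N := div_nonneg (abs_nonneg _) (by linarith)
    have h2 : (((1 + |(n : ℝ)| / N) ^ (1 / 4 : ℝ)) ^ 2 : ℝ) ≤ 1 + |(n : ℝ)| / N := by
      rw [← Real.rpow_natCast, ← Real.rpow_mul (by linarith)]
      calc (1 + |(n : ℝ)| / N) ^ ((1 / 4 : ℝ) * (2 : ℕ))
          ≤ (1 + |(n : ℝ)| / N) ^ (1 : ℝ) :=
            Real.rpow_le_rpow_of_exponent_le (by linarith) (by norm_num)
        _ = _ := Real.rpow_one _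
    calc rK k c X S n * rK k c X S n = |rK k c X S n| ^ 2 := by rw [sq_abs, sq]
      _ ≤ (C₁ * (1 + |(n : ℝ)| / N) ^ (1 / 4 : ℝ)) ^ 2 :=
          pow_le_pow_left₀ (abs_nonneg _) h1 2
      _ = C₁ ^ 2 * ((1 + |(n : ℝ)| / N) ^ (1 / 4 : ℝ)) ^ 2 := by ring
      _ ≤ _ := mul_le_mul_of_nonneg_left h2 (by positivity)
  have hle : ∀ n : ℤ, Wt N n * BX.nuS lam z n * (rK k c X S n * rK k c X S n) ≤
      2 * C₁ ^ 2 * (Wt (2 * N) n * BX.nuS lam z n) := by
    intro n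
    have hw : 0 ≤ Wt N n := (Real.exp_pos _).le
    have hnu := BX.TaskDI.nuS_nonneg lam z n
    calc Wt N n * BX.nuS lam z n * (rK k c X S n * rK k c X S n)
        ≤ Wt N n * BX.nuS lam z n * (C₁ ^ 2 * (1 + |(n : ℝ)| / N)) :=
          mul_le_mul_of_nonneg_left (hsq n) (mul_nonneg hw hnu)
      _ = C₁ ^ 2 * BX.nuS lam z n * (Wt N n * (1 + |(n : ℝ)| / N)) := by ring
      _ ≤ C₁ ^ 2 * BX.nuS lam z n * (2 * Wt (2 * N) n) :=
          mul_le_mul_of_nonneg_left ((hGS N hN3).1 n) (mul_nonneg (sq_nonneg _) hnu)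
      _ = _ := by ring
  have hs := (BX.TaskDI.sum_nuS (lam := lam) (z := z) hlam.bd (2 * N) (by omega)).mul_left
    (2 * C₁ ^ 2)
  have hs0 : Summable (fun n : ℤ => Wt N n * BX.nuS lam z n * (rK k c X S n * rK k c X S n)) :=
    summ_rK hε hN4 hX lam hlam.bd hc hc
  have hfin := hG (2 * N) z (by omega) hz (hzN.trans (by
    refine Real.rpow_le_rpow (by linarith) ?_ (by norm_num)
    push_cast
    linarith)) lam hlam
  calc ∑' n : ℤ, Wt N n * BX.nuS lam z n * (rK k c X S n * rK k c X S n)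
      ≤ ∑' n : ℤ, 2 * C₁ ^ 2 * (Wt (2 * N) n * BX.nuS lam z n) := hs0.tsum_le_tsum hle hs
    _ = 2 * C₁ ^ 2 * ∑' n : ℤ, Wt (2 * N) n * BX.nuS lam z n := tsum_mul_left
    _ ≤ 2 * C₁ ^ 2 * (3 * ((2 * N : ℕ) : ℝ) / Real.log z) :=
        mul_le_mul_of_nonneg_left hfin (by positivity)
    _ = 12 * C₁ ^ 2 * N / Real.log z := by
        push_cast
        ring

/-! ### the prime side -/

/-- the coefficients: the signs of the discrepancies -/
noncomputable def co (k : ℕ) (f : ℕ → ℝ) (N : ℕ) (S : Finset (ℤ × ℕ)) (T : Finset ℕ) (d : ℕ) : ℝ :=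
  if d ∈ T then (if 0 ≤ DK k f N S d then 1 else -1) else 0

theorem co_bd (k : ℕ) (f : ℕ → ℝ) (N : ℕ) (S : Finset (ℤ × ℕ)) (T : Finset ℕ) (d : ℕ) :
    |co k f N S T d| ≤ 1 := by
  unfold co
  split_ifs <;> simp

theorem co_mem {k : ℕ} {f : ℕ → ℝ} {N : ℕ} {S : Finset (ℤ × ℕ)} {T : Finset ℕ} {d : ℕ}
    (h : co k f N S T d ≠ 0) : d ∈ T := by
  by_contra hd
  exact h (by unfold co; rw [if_neg hd])

theorem co_mul {k : ℕ} {f : ℕ → ℝ} {N : ℕ} {S : Finset (ℤ × ℕ)} {T : Finset ℕ} {d : ℕ}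
    (h : d ∈ T) : co k f N S T d * DK k f N S d = |DK k f N S d| := by
  unfold co
  rw [if_pos h]
  split_ifs with h0
  · rw [one_mul, abs_of_nonneg h0]
  · rw [neg_one_mul, abs_of_neg (not_le.1 h0)]

theorem DK_eq (k : ℕ) (f : ℕ → ℝ) (N : ℕ) (S : Finset (ℤ × ℕ)) (d : ℕ) :
    DK k f N S d = ∑ p ∈ (Icc 1 N).filter Nat.Prime, f p * dk k d (Fp S p) -
      (∑ p ∈ (Icc 1 N).filter Nat.Prime, f p) *
        (kw k d * (1 / (Nat.totient d : ℝ) - 1 / (d : ℝ))) := by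
  classical
  have h1 : ∑ p ∈ (Icc 1 N).filter (fun p : ℕ => p.Prime ∧ (d : ℤ) ∣ Fp S p), f p =
      ∑ p ∈ (Icc 1 N).filter Nat.Prime, f p * (if (d : ℤ) ∣ Fp S p then 1 else 0) := by
    rw [Finset.sum_filter, Finset.sum_filter]
    apply Finset.sum_congr rfl
    intro p _
    by_cases hp : p.Prime
    · by_cases hd : (d : ℤ) ∣ Fp S p
      · rw [if_pos ⟨hp, hd⟩, if_pos hp, if_pos hd, mul_one]
      · rw [if_neg (fun h => hd h.2), if_pos hp, if_neg hd, mul_zero]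
    · rw [if_neg (fun h => hp h.1), if_neg hp]
  have h2 : ∑ p ∈ (Icc 1 N).filter Nat.Prime, f p * dk k d (Fp S p) =
      ∑ p ∈ (Icc 1 N).filter Nat.Prime, f p * (if (d : ℤ) ∣ Fp S p then 1 else 0) -
        (∑ p ∈ (Icc 1 N).filter Nat.Prime, f p) * (kw k d / (d : ℝ)) := by
    rw [Finset.sum_mul, ← Finset.sum_sub_distrib]
    apply Finset.sum_congr rfl
    intro p _
    unfold dk
    split_ifs <;> ring
  unfold DK
  rw [h2, ← h1]
  ring

theorem RK_eq (k : ℕ) (f : ℕ → ℝ) (N X : ℕ) (S : Finset (ℤ × ℕ)) (T : Finset ℕ)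
    (hT : ∀ d ∈ T, 1 < d ∧ d ≤ X) (n : ℤ) :
    RK k (co k f N S T) X S n = ∑ d ∈ T, co k f N S T d * dk k d (Fp S n) := by
  unfold RK
  symm
  apply Finset.sum_subset
  · intro d hd
    exact Finset.mem_Icc.2 ⟨(hT d hd).1.le, (hT d hd).2⟩
  · intro d _ hd
    have : co k f N S T d = 0 := by
      by_contra h
      exact hd (co_mem h)
    rw [this, zero_mul]

/-- the number of primes at which one of the forms vanishes -/
theorem card_zero {k M N : ℕ} {S : Finset (ℤ × ℕ)} (hS : Sys k M N S) (P : Finset ℕ) :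
    ((P.filter (fun p : ℕ => Fp S p = 0)).card : ℝ) ≤ k := by
  classical
  have h : (P.filter (fun p : ℕ => Fp S p = 0)).card ≤ S.card := by
    have hex : ∀ p ∈ P.filter (fun p : ℕ => Fp S p = 0), ∃ L ∈ S, lf L p = 0 := by
      intro p hp
      have h1 := (Finset.mem_filter.1 hp).2
      unfold Fp at h1
      exact Finset.prod_eq_zero_iff.1 h1
    choose! g hg1 hg2 using hex
    apply Finset.card_le_card_of_injOn g hg1
    intro p hp q hq hpq
    have h1 := hg2 p hp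
    have h2 := hg2 q hq
    rw [← hpq] at h2
    have hb : ((g p).2 : ℤ) ≠ 0 := by
      have := (hS.fo (g p) (hg1 p hp)).b1
      exact_mod_cast (by omega : (g p).2 ≠ 0)
    unfold lf at h1 h2
    have h3 : ((g p).2 : ℤ) * p = (g p).2 * q := by linarith
    have h4 : (p : ℤ) = (q : ℤ) := mul_left_cancel₀ hb h3
    exact_mod_cast h4
  rw [hS.card] at h
  exact_mod_cast h

/-- the prime side -/
theorem prK (hPBK : St_PBK) (hRT : BX.St_RT) : ∀ (k M : ℕ) (ε : ℝ), 0 < ε →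
    ∃ (N₀ : ℕ) (C : ℝ), 0 < C ∧ ∀ (N z X : ℕ), N₀ ≤ N → X ≤ N →
    ∀ f : ℕ → ℝ, (∀ p, |f p| ≤ 1) → ∀ S : Finset (ℤ × ℕ), Sys k M N S →
    ∀ T : Finset ℕ, (∀ d ∈ T, Mo ((N : ℝ) ^ ε) X S d) →
    ∃ c : ℕ → ℝ, CofK ((N : ℝ) ^ ε) X S c ∧ (∀ d, c d ≠ 0 → d ∈ T) ∧
      ∑ d ∈ T, |DK k f N S d| ≤
        |∑ p ∈ (Icc 1 N).filter (fun p => p.Prime ∧ z < p), f p * rK k c X S p| +
          C * (z + X + (N : ℝ) ^ (1 - ε / 2)) := by
  classical
  intro k M ε hε
  obtain ⟨N₁, C₁, hC₁, hPB⟩ := hPBK k M ε hε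
  obtain ⟨C₂, hC₂, hRT⟩ := hRT ε hε
  have hK1 := Ck_one k ε
  have hK0 : 0 < Ck k ε := by linarith
  refine ⟨max N₁ 2, 2 * C₁ + k * Ck k ε + Ck k ε * C₂, by positivity, ?_⟩
  intro N z X hN hXN f hf S hS T hT
  have hN1 : N₁ ≤ N := (le_max_left _ _).trans hN
  have hN2 : 2 ≤ N := (le_max_right _ _).trans hN
  have hNpos : (0 : ℝ) < N := by exact_mod_cast (by omega : 0 < N)
  have hCof : CofK ((N : ℝ) ^ ε) X S (co k f N S T) :=
    ⟨fun d => co_bd k f N S T d, fun d hd => hT d (co_mem hd)⟩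
  refine ⟨co k f N S T, hCof, fun d hd => co_mem hd, ?_⟩
  set c := co k f N S T with hc
  set P := (Icc 1 N).filter Nat.Prime with hP
  set F := ∑ p ∈ P, f p with hF
  -- number of primes
  have hPcard : (P.card : ℝ) ≤ N := by
    have : P.card ≤ (Icc 1 N).card := Finset.card_filter_le _ _
    rw [Nat.card_Icc] at this
    exact_mod_cast (by omega : P.card ≤ N)
  have hFabs : |F| ≤ N := by
    refine (Finset.abs_sum_le_sum_abs _ _).trans ?_
    refine (Finset.sum_le_sum (fun p _ => hf p)).trans ?_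
    simpa using hPcard
  -- the error from the totients
  have hE : |F * ∑ d ∈ T, c d * (kw k d * (1 / (Nat.totient d : ℝ) - 1 / (d : ℝ)))| ≤
      Ck k ε * C₂ * (N : ℝ) ^ (1 - ε / 2) := by
    have hnn : ∀ d : ℕ, 1 ≤ d → 0 ≤ 1 / (Nat.totient d : ℝ) - 1 / (d : ℝ) := by
      intro d hd
      have h1 : 0 < Nat.totient d := Nat.totient_pos.2 hd
      have h2 : (Nat.totient d : ℝ) ≤ d := by exact_mod_cast Nat.totient_le d
      have h1' : (0 : ℝ) < Nat.totient d := by exact_mod_cast h1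
      have := one_div_le_one_div_of_le h1' h2
      linarith
    have hs : |∑ d ∈ T, c d * (kw k d * (1 / (Nat.totient d : ℝ) - 1 / (d : ℝ)))| ≤
        Ck k ε * (C₂ * (N : ℝ) ^ (-(ε / 2))) := by
      refine (Finset.abs_sum_le_sum_abs _ _).trans ?_
      refine le_trans ?_ (mul_le_mul_of_nonneg_left (hRT N hN2) hK0.le)
      have hsub : T ⊆ BX.roughs ((N : ℝ) ^ ε) N := by
        intro d hd
        have h := hT d hd
        exact BX.TaskPR.mem_roughs_iff.2 ⟨⟨h.1.le, h.2.1.trans hXN⟩, Mo.rough h⟩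
      rw [Finset.mul_sum]
      calc ∑ d ∈ T, |c d * (kw k d * (1 / (Nat.totient d : ℝ) - 1 / (d : ℝ)))|
          ≤ ∑ d ∈ T, Ck k ε * (1 / (Nat.totient d : ℝ) - 1 / (d : ℝ)) := by
            apply Finset.sum_le_sum
            intro d hd
            have h0 := hnn d (hT d hd).1.le
            have hk0 := kw_nonneg k d
            have hk1 := kw_le (k := k) hε hN2 ((hT d hd).2.1.trans hXN) (Mo.rough (hT d hd))
            rw [abs_mul, abs_of_nonneg (mul_nonneg hk0 h0)]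
            calc |c d| * _ ≤ 1 * (Ck k ε * (1 / (Nat.totient d : ℝ) - 1 / (d : ℝ))) :=
                  mul_le_mul (co_bd k f N S T d) (mul_le_mul_of_nonneg_right hk1 h0)
                    (mul_nonneg hk0 h0) zero_le_one
              _ = _ := one_mul _
        _ ≤ ∑ d ∈ BX.roughs ((N : ℝ) ^ ε) N,
              Ck k ε * (1 / (Nat.totient d : ℝ) - 1 / (d : ℝ)) := by
            apply Finset.sum_le_sum_of_subset_of_nonneg hsub
            intro d hd _
            exact mul_nonneg hK0.le (hnn d (BX.TaskPR.mem_roughs_iff.1 hd).1.1)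
    rw [abs_mul]
    calc |F| * |∑ d ∈ T, c d * (kw k d * (1 / (Nat.totient d : ℝ) - 1 / (d : ℝ)))|
        ≤ N * (Ck k ε * (C₂ * (N : ℝ) ^ (-(ε / 2)))) :=
          mul_le_mul hFabs hs (abs_nonneg _) hNpos.le
      _ = Ck k ε * C₂ * (N : ℝ) ^ (1 - ε / 2) := by
          rw [sub_eq_add_neg, Real.rpow_add hNpos, Real.rpow_one]
          ring
  -- the main identity
  have hT' : ∀ d ∈ T, 1 < d ∧ d ≤ X := fun d hd => ⟨(hT d hd).1, (hT d hd).2.1⟩
  have hid : ∑ d ∈ T, |DK k f N S d| = ∑ p ∈ P, f p * RK k c X S p -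
      F * ∑ d ∈ T, c d * (kw k d * (1 / (Nat.totient d : ℝ) - 1 / (d : ℝ))) := by
    have h1 : ∑ d ∈ T, |DK k f N S d| = ∑ d ∈ T, c d * DK k f N S d :=
      Finset.sum_congr rfl (fun d hd => (co_mul hd).symm)
    have h2 : ∑ p ∈ P, f p * RK k c X S p = ∑ d ∈ T, c d * ∑ p ∈ P, f p * dk k d (Fp S p) := by
      have h3 : ∀ p ∈ P, f p * RK k c X S p = ∑ d ∈ T, c d * (f p * dk k d (Fp S p)) := by
        intro p _
        rw [hc, RK_eq k f N X S T hT', Finset.mul_sum]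
        apply Finset.sum_congr rfl
        intro d _
        ring
      rw [Finset.sum_congr rfl h3, Finset.sum_comm]
      apply Finset.sum_congr rfl
      intro d _
      rw [Finset.mul_sum]
    rw [h1, h2, Finset.mul_sum, ← Finset.sum_sub_distrib]
    apply Finset.sum_congr rfl
    intro d _
    rw [DK_eq]
    ring
  -- replace RK by rK
  have hself : |∑ p ∈ P, f p * (RK k c X S p - rK k c X S p)| ≤ k * Ck k ε * X := by
    have hz : ∀ p ∈ P, Fp S p ≠ 0 → f p * (RK k c X S p - rK k c X S p) = 0 := by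
      intro p _ hp
      unfold rK
      rw [if_neg hp, sub_self, mul_zero]
    have h1 : ∑ p ∈ P, f p * (RK k c X S p - rK k c X S p) =
        ∑ p ∈ P.filter (fun p : ℕ => Fp S p = 0), f p * (RK k c X S p - rK k c X S p) :=
      (Finset.sum_filter_of_ne (fun p hp hne => by
        by_contra h
        exact hne (hz p hp h))).symm
    rw [h1]
    refine (Finset.abs_sum_le_sum_abs _ _).trans ?_
    have h2 : ∀ p ∈ P.filter (fun p : ℕ => Fp S p = 0),
        |f p * (RK k c X S p - rK k c X S p)| ≤ Ck k ε * X := by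
      intro p hp
      have hp0 := (Finset.mem_filter.1 hp).2
      have h3 : rK k c X S p = 0 := by
        unfold rK
        rw [if_pos hp0]
      rw [h3, sub_zero, abs_mul]
      calc |f p| * |RK k c X S p| ≤ 1 * (Ck k ε * X) :=
            mul_le_mul (hf p) (RK_bd hε hN2 hXN hCof p) (abs_nonneg _) zero_le_one
        _ = _ := one_mul _
    refine (Finset.sum_le_sum h2).trans ?_
    rw [Finset.sum_const, nsmul_eq_mul]
    have h3 := card_zero hS P
    calc ((P.filter (fun p : ℕ => Fp S p = 0)).card : ℝ) * (Ck k ε * X) ≤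
          k * (Ck k ε * X) := mul_le_mul_of_nonneg_right h3 (by positivity)
      _ = k * Ck k ε * X := by ring
  -- small primes
  have hsmall : |∑ p ∈ P.filter (fun p => ¬ z < p), f p * rK k c X S p| ≤ 2 * C₁ * z := by
    refine (Finset.abs_sum_le_sum_abs _ _).trans ?_
    have hterm : ∀ p ∈ P.filter (fun p => ¬ z < p), |f p * rK k c X S p| ≤ 2 * C₁ := by
      intro p hp
      have hpP := (Finset.mem_filter.1 hp).1
      have hpN : p ≤ N := (Finset.mem_Icc.1 (Finset.mem_filter.1 hpP).1).2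
      have h1 := (hPB N X hN1 hXN S hS).2 c hCof p
      have h2 : (1 + |(((p : ℕ) : ℤ) : ℝ)| / N) ≤ 2 := by
        have h3 : |(((p : ℕ) : ℤ) : ℝ)| = (p : ℝ) := by
          rw [Int.cast_natCast]
          exact abs_of_nonneg (Nat.cast_nonneg p)
        rw [h3]
        have h4 : (p : ℝ) / N ≤ 1 := by
          rw [div_le_one hNpos]
          exact_mod_cast hpN
        linarith
      have h0 : (0 : ℝ) ≤ 1 + |(((p : ℕ) : ℤ) : ℝ)| / N := by positivity
      have h5 : (1 + |(((p : ℕ) : ℤ) : ℝ)| / N) ^ (1 / 4 : ℝ) ≤ 2 := by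
        calc (1 + |(((p : ℕ) : ℤ) : ℝ)| / N) ^ (1 / 4 : ℝ) ≤ (2 : ℝ) ^ (1 / 4 : ℝ) :=
              Real.rpow_le_rpow h0 h2 (by norm_num)
          _ ≤ (2 : ℝ) ^ (1 : ℝ) := Real.rpow_le_rpow_of_exponent_le (by norm_num) (by norm_num)
          _ = 2 := Real.rpow_one 2
      rw [abs_mul]
      calc |f p| * |rK k c X S p| ≤ 1 * (C₁ * (1 + |(((p : ℕ) : ℤ) : ℝ)| / N) ^ (1 / 4 : ℝ)) :=
            mul_le_mul (hf p) h1 (abs_nonneg _) zero_le_one
        _ ≤ 2 * C₁ := by nlinarith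
    refine (Finset.sum_le_sum hterm).trans ?_
    rw [Finset.sum_const, nsmul_eq_mul]
    have hcard : (P.filter (fun p => ¬ z < p)).card ≤ z := by
      have hsub : P.filter (fun p => ¬ z < p) ⊆ Icc 1 z := by
        intro p hp
        rw [Finset.mem_filter] at hp
        have h1 := Finset.mem_Icc.1 (Finset.mem_filter.1 hp.1).1
        exact Finset.mem_Icc.2 ⟨h1.1, not_lt.1 hp.2⟩
      calc (P.filter (fun p => ¬ z < p)).card ≤ (Icc 1 z).card := Finset.card_le_card hsub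
        _ = z := by rw [Nat.card_Icc]; omega
    have hcard' : ((P.filter (fun p => ¬ z < p)).card : ℝ) ≤ z := by exact_mod_cast hcard
    calc ((P.filter (fun p => ¬ z < p)).card : ℝ) * (2 * C₁) ≤ z * (2 * C₁) :=
          mul_le_mul_of_nonneg_right hcard' (by positivity)
      _ = 2 * C₁ * z := by ring
  -- splitting
  have hsplit : ∑ p ∈ P, f p * RK k c X S p =
      ∑ p ∈ P.filter (fun p => z < p), f p * rK k c X S p +
      ∑ p ∈ P.filter (fun p => ¬ z < p), f p * rK k c X S p +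
      ∑ p ∈ P, f p * (RK k c X S p - rK k c X S p) := by
    rw [Finset.sum_filter_add_sum_filter_not, ← Finset.sum_add_distrib]
    apply Finset.sum_congr rfl
    intro p _
    ring
  have hfil : (Icc 1 N).filter (fun p => p.Prime ∧ z < p) = P.filter (fun p => z < p) := by
    rw [hP, Finset.filter_filter]
  rw [hfil, hid, hsplit]
  have e1 := le_abs_self (∑ p ∈ P.filter (fun p => z < p), f p * rK k c X S p)
  have e2 := le_abs_self (∑ p ∈ P.filter (fun p => ¬ z < p), f p * rK k c X S p)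
  have e3 := le_abs_self (∑ p ∈ P, f p * (RK k c X S p - rK k c X S p))
  have e4 := neg_abs_le (F * ∑ d ∈ T, c d * (kw k d * (1 / (Nat.totient d : ℝ) - 1 / (d : ℝ))))
  have hz0 : (0 : ℝ) ≤ z := Nat.cast_nonneg z
  have hX0 : (0 : ℝ) ≤ X := Nat.cast_nonneg X
  have hp0 : 0 ≤ (N : ℝ) ^ (1 - ε / 2) := by positivity
  obtain ⟨K1, hK1e⟩ : ∃ K1, K1 = (k : ℝ) * Ck k ε := ⟨_, rfl⟩
  obtain ⟨K2, hK2e⟩ : ∃ K2, K2 = Ck k ε * C₂ := ⟨_, rfl⟩
  have hK10 : 0 ≤ K1 := by rw [hK1e]; positivity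
  have hK20 : 0 ≤ K2 := by rw [hK2e]; positivity
  rw [← hK1e] at hself
  rw [← hK2e] at hE
  rw [← hK1e, ← hK2e]
  have k1 : 2 * C₁ * z ≤ (2 * C₁ + K1 + K2) * z := by nlinarith
  have k2 : K1 * X ≤ (2 * C₁ + K1 + K2) * X := by nlinarith
  have k3 : K2 * (N : ℝ) ^ (1 - ε / 2) ≤ (2 * C₁ + K1 + K2) * (N : ℝ) ^ (1 - ε / 2) := by nlinarith
  have k4 : (2 * C₁ + K1 + K2) * (z + X + (N : ℝ) ^ (1 - ε / 2)) =
      (2 * C₁ + K1 + K2) * z + (2 * C₁ + K1 + K2) * X +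
        (2 * C₁ + K1 + K2) * (N : ℝ) ^ (1 - ε / 2) := by ring
  rw [k4]
  linarith

end Pool.Agent.W363.KT
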