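import Pool.Agent.W363.KT.BLKa

/-!
KT project, task BLK (helper363): the Bessel inequality for systems of linear forms
(adapted from `W74/SG/BLF.lean`).
-/

set_option autoImplicit false

namespace Pool.Agent.W363.KT

open Finset
open Pool.Agent.H442R2
open Pool.Agent.H442R2.KF
open Pool.Agent.W23.SG
open Pool.Agent.W23.KT

namespace TaskBLK

lemma DK_triv {k : ℕ} {ε : ℝ} (hε : 0 < ε) {f : ℕ → ℝ} (hf : ∀ p, |f p| ≤ 1) {N : ℕ} (hN : 2 ≤ N)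
    (S : Finset (ℤ × ℕ)) {d : ℕ} (hd : d ≤ N) (hr : BX.Rough ((N : ℝ) ^ ε) d) :
    |DK k f N S d| ≤ 2 * Ck k ε * N := by
  classical
  unfold DK
  have hk0 := kw_nonneg k d
  have hk1 := kw_le (k := k) hε hN hd hr
  have hK1 := Ck_one k ε
  have hN0 : (0 : ℝ) ≤ N := Nat.cast_nonneg N
  have h3 : |∑ p ∈ (Icc 1 N).filter Nat.Prime, f p| ≤ N :=
    BX.TaskBK.sum_triv hf (filter_subset _ _)
  have h2 : |(∑ p ∈ (Icc 1 N).filter Nat.Prime, f p) * (kw k d / (Nat.totient d : ℝ))| ≤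
      N * Ck k ε := by
    rw [abs_mul, abs_of_nonneg (by positivity : 0 ≤ kw k d / (Nat.totient d : ℝ))]
    refine mul_le_mul h3 ?_ (by positivity) hN0
    rcases Nat.eq_zero_or_pos (Nat.totient d) with h | h
    · rw [h]
      simp only [Nat.cast_zero, div_zero]
      linarith
    · refine (div_le_self hk0 ?_).trans hk1
      exact_mod_cast h
  refine (abs_sub _ _).trans ?_
  have h1 : |∑ p ∈ (Icc 1 N).filter (fun p : ℕ => p.Prime ∧ (d : ℤ) ∣ Fp S p), f p| ≤ N :=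
    BX.TaskBK.sum_triv hf (filter_subset _ _)
  have h5 : (N : ℝ) ≤ Ck k ε * N := le_mul_of_one_le_left hN0 hK1
  have h6 : ∀ a : ℝ, a ≤ N → a + |(∑ p ∈ (Icc 1 N).filter Nat.Prime, f p) *
      (kw k d / (Nat.totient d : ℝ))| ≤ 2 * Ck k ε * N := by
    intro a ha
    linarith
  apply h6
  convert h1

lemma small {k : ℕ} {ε : ℝ} (hε : 0 < ε) {f : ℕ → ℝ} (hf : ∀ p, |f p| ≤ 1) {N : ℕ} (hN : 2 ≤ N)
    (S : Finset (ℤ × ℕ)) {T : Finset ℕ} (hT : T ⊆ Icc 1 N)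
    (hr : ∀ d ∈ T, BX.Rough ((N : ℝ) ^ ε) d) :
    (∑ d ∈ T, |DK k f N S d|) ^ 2 ≤ 4 * Ck k ε ^ 2 * (N : ℝ) ^ 4 := by
  have hK1 := Ck_one k ε
  have h1 : ∑ d ∈ T, |DK k f N S d| ≤ T.card * (2 * Ck k ε * N) := by
    refine (sum_le_card_nsmul _ _ (2 * Ck k ε * (N : ℝ)) (fun d hd => DK_triv hε hf hN S
      (Finset.mem_Icc.1 (hT hd)).2 (hr d hd))).trans ?_
    rw [nsmul_eq_mul]
  have h2 : (T.card : ℝ) ≤ N := by
    have := card_le_card hT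
    rw [Nat.card_Icc] at this
    exact_mod_cast (by omega : T.card ≤ N)
  have h3 : ∑ d ∈ T, |DK k f N S d| ≤ 2 * Ck k ε * (N : ℝ) ^ 2 := by
    refine h1.trans ?_
    calc (T.card : ℝ) * (2 * Ck k ε * N) ≤ N * (2 * Ck k ε * N) :=
          mul_le_mul_of_nonneg_right h2 (by positivity)
      _ = 2 * Ck k ε * (N : ℝ) ^ 2 := by ring
  calc (∑ d ∈ T, |DK k f N S d|) ^ 2 ≤ (2 * Ck k ε * (N : ℝ) ^ 2) ^ 2 :=
        pow_le_pow_left₀ (sum_nonneg fun d _ => abs_nonneg _) h3 2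
    _ = 4 * Ck k ε ^ 2 * (N : ℝ) ^ 4 := by ring

/-- the case of small `N`, numbers only -/
lemma num0 {x L η c Sa M Cb Q K : ℝ} (hx : 2 ≤ x) (hL : L = Real.log x) (hη : η ≤ 1) (hc : 0 ≤ c)
    (hM : x ≤ M) (hK : 0 ≤ K) (hSa : Sa ≤ c * (4 * K * x ^ 4)) (hCb : 0 ≤ Cb) (hQ : 0 ≤ Q) :
    Sa ≤ (Cb + 4 * K * M ^ 4) * (Q * (x / L) + c * x ^ (2 - η)) := by
  have hx0 : 0 < x := by linarith
  have hx1 : 1 ≤ x := by linarith
  have hM0 : 0 < M := by linarith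
  have hL0 : 0 < L := by
    rw [hL]
    exact Real.log_pos (by linarith)
  have h1 : 1 ≤ x ^ (2 - η) := Real.one_le_rpow hx1 (by linarith)
  have h2 : 0 ≤ Q * (x / L) := by positivity
  calc Sa ≤ c * (4 * K * x ^ 4) := hSa
    _ ≤ c * (4 * K * M ^ 4) := by gcongr
    _ = (0 + 4 * K * M ^ 4) * (0 + c * 1) := by ring
    _ ≤ (Cb + 4 * K * M ^ 4) * (Q * (x / L) + c * x ^ (2 - η)) := by
        gcongr

end TaskBLK

theorem BLK (hTTK : St_TTK) (hPBK : St_PBK) (hGS : BX.St_GS) (hGW : BX.St_GW) (hWX : BX.St_WX)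
    (hRT : BX.St_RT) : St_BLK := by
  intro k Mp θ ε hθ hε
  obtain ⟨e1, n1, C1, he1, hn1, hC1, tt⟩ := hTTK k Mp θ ε hθ hε
  obtain ⟨N2, C2, hC2, di⟩ := diK hPBK hGS hGW k Mp ε hε
  obtain ⟨N3, C3, hC3, pr⟩ := prK hPBK hRT k Mp ε hε
  have hK1 := Ck_one k ε
  obtain ⟨e0, he0, he01, he04⟩ : ∃ e0 : ℝ, 0 < e0 ∧ e0 ≤ e1 ∧ e0 ≤ 1 / 4 :=
    ⟨min e1 (1 / 4), lt_min he1 (by norm_num), min_le_left _ _, min_le_right _ _⟩
  obtain ⟨n2, hn2, hn24, hn2e⟩ : ∃ n2 : ℝ, 0 < n2 ∧ n2 ≤ 1 / 4 ∧ n2 ≤ ε / 2 :=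
    ⟨min (1 / 4) (ε / 2), lt_min (by norm_num) (by linarith), min_le_left _ _, min_le_right _ _⟩
  obtain ⟨η, hη, hη1, hη2⟩ : ∃ η : ℝ, 0 < η ∧ η ≤ n1 ∧ η ≤ n2 :=
    ⟨min n1 n2, lt_min hn1 hn2, min_le_left _ _, min_le_right _ _⟩
  obtain ⟨N5, hN5⟩ : ∃ N5 : ℕ, ∀ N : ℕ, N5 ≤ N → (2 : ℝ) ≤ (N : ℝ) ^ (e0 / 2) := by
    have := ((tendsto_rpow_atTop (half_pos he0)).comp
      (tendsto_natCast_atTop_atTop (R := ℝ))).eventually_ge_atTop 2
    exact Filter.eventually_atTop.1 this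
  have hCb : 0 < 50 * C2 * (2 / e0) + 50 * C1 + 18 * C3 ^ 2 := by positivity
  obtain ⟨M, hM⟩ : ∃ M : ℕ, M = N2 + N3 + N5 + 2 := ⟨_, rfl⟩
  refine ⟨η, 50 * C2 * (2 / e0) + 50 * C1 + 18 * C3 ^ 2 + 4 * Ck k ε ^ 2 * (M : ℝ) ^ 4, hη,
    by positivity, ?_⟩
  intro N hN f hf A hA hdis T hT
  have hNr : (2 : ℝ) ≤ N := by exact_mod_cast hN
  have hN0 : (0 : ℝ) < N := by linarith
  have hN1 : (1 : ℝ) ≤ N := by linarith
  obtain ⟨X, hX⟩ : ∃ X : ℕ, X = ⌊(N : ℝ) ^ θ⌋₊ := ⟨_, rfl⟩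
  have hXθ : (X : ℝ) ≤ (N : ℝ) ^ θ := by
    rw [hX]
    exact Nat.floor_le (Real.rpow_nonneg hN0.le _)
  have hXN' : (X : ℝ) ≤ (N : ℝ) ^ (3 / 4 : ℝ) :=
    hXθ.trans (Real.rpow_le_rpow_of_exponent_le hN1 (by linarith))
  have hXN : X ≤ N := by
    have : (X : ℝ) ≤ N := hXN'.trans (by
      calc (N : ℝ) ^ (3 / 4 : ℝ) ≤ (N : ℝ) ^ (1 : ℝ) :=
            Real.rpow_le_rpow_of_exponent_le hN1 (by norm_num)
        _ = N := Real.rpow_one _)
    exact_mod_cast this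
  rw [← hX] at hT
  have hQ0 : 0 ≤ Q2 f N := sum_nonneg fun p _ => sq_nonneg _
  rcases lt_or_ge N M with hNM | hNM
  · refine TaskBLK.num0 hNr rfl (by linarith) (Nat.cast_nonneg _) (by exact_mod_cast hNM.le)
      (sq_nonneg _) ?_ hCb.le hQ0
    calc ∑ S ∈ A, (∑ d ∈ T S, |DK k f N S d|) ^ 2 ≤ ∑ S ∈ A, 4 * Ck k ε ^ 2 * (N : ℝ) ^ 4 := by
          refine sum_le_sum fun S hS => TaskBLK.small hε hf hN S (fun d hd => ?_)
            (fun d hd => Mo.rough (hT S hS d hd))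
          have h := hT S hS d hd
          rw [mem_Icc]
          exact ⟨h.1.le, h.2.1.trans hXN⟩
      _ = A.card * (4 * Ck k ε ^ 2 * (N : ℝ) ^ 4) := by rw [sum_const, nsmul_eq_mul]
  · have hL0 : 0 < Real.log N := Real.log_pos (by linarith)
    have hg2 : (2 : ℝ) ≤ (N : ℝ) ^ (e0 / 2) := hN5 N (by omega)
    obtain ⟨g, hg⟩ : ∃ g : ℝ, g = (N : ℝ) ^ (e0 / 2) := ⟨_, rfl⟩
    rw [← hg] at hg2
    have hgg : (N : ℝ) ^ e0 = g * g := by
      rw [hg, ← Real.rpow_add hN0]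
      congr 1
      ring
    obtain ⟨z, hz⟩ : ∃ z : ℕ, z = ⌊(N : ℝ) ^ e0⌋₊ := ⟨_, rfl⟩
    have hz1 : (z : ℝ) ≤ (N : ℝ) ^ e0 := by
      rw [hz]
      exact Nat.floor_le (Real.rpow_nonneg hN0.le _)
    have hz2 : (N : ℝ) ^ e0 < z + 1 := by
      rw [hz]
      exact Nat.lt_floor_add_one _
    have hgz : g ≤ z := by
      rw [hgg] at hz2
      nlinarith
    have hz3 : 2 ≤ z := by
      have : (2 : ℝ) ≤ z := hg2.trans hgz
      exact_mod_cast this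
    have hz4 : (z : ℝ) ≤ (N : ℝ) ^ (1 / 4 : ℝ) :=
      hz1.trans (Real.rpow_le_rpow_of_exponent_le hN1 he04)
    have hz5 : (z : ℝ) ≤ (N : ℝ) ^ e1 := hz1.trans (Real.rpow_le_rpow_of_exponent_le hN1 he01)
    have hlz : e0 / 2 * Real.log N ≤ Real.log z := by
      rw [← Real.log_rpow hN0, ← hg]
      exact Real.log_le_log (by linarith) hgz
    have hlz0 : 0 < Real.log z := lt_of_lt_of_le (by positivity) hlz
    obtain ⟨lam, hlam⟩ := hWX z hz3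
    have hc : ∀ S : Finset (ℤ × ℕ), ∃ c : ℕ → ℝ, S ∈ A → (CofK ((N : ℝ) ^ ε) X S c ∧
        ∑ d ∈ T S, |DK k f N S d| ≤
          |∑ p ∈ (Icc 1 N).filter (fun p => p.Prime ∧ z < p), f p * rK k c X S p| +
            C3 * (z + X + (N : ℝ) ^ (1 - ε / 2))) := by
      intro S
      by_cases hS : S ∈ A
      · obtain ⟨c, h1, _, h3⟩ := pr N z X (by omega) hXN f hf S (hA S hS) (T S) (hT S hS)
        exact ⟨c, fun _ => ⟨h1, h3⟩⟩
      · exact ⟨0, fun h => absurd h hS⟩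
    choose c hc using hc
    have hw25 : ∀ p ∈ (Icc 1 N).filter (fun p => p.Prime ∧ z < p),
        (1 : ℝ) ≤ 25 * (fun n : ℤ => Wt N n * BX.nuS lam z n) (p : ℤ) := by
      intro p hp
      rw [mem_filter, mem_Icc] at hp
      exact BX.TaskBK.w_prime hlam (by omega) hp.2.1 hp.2.2 hp.1.2
    have hG0 : 0 ≤ C2 * N / Real.log z := by positivity
    have hO0 : 0 ≤ C1 * (N : ℝ) ^ (1 - n1) := by positivity
    have hdu := Pool.Agent.W74.SG.DUg.du (fun n : ℤ => Wt N n * BX.nuS lam z n)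
      (fun n => BX.TaskBK.w_nonneg N z lam n)
      ((Icc 1 N).filter (fun p => p.Prime ∧ z < p)) hw25 A (fun S n => rK k (c S) X S n) f
      (fun S hS S' hS' => summ_rK hε hN hXN lam hlam.bd (hc S hS).1 (hc S' hS').1)
      (C2 * N / Real.log z) (C1 * (N : ℝ) ^ (1 - n1))
      (fun S hS => di N z X (by omega) hXN hz3 hz4 lam hlam S (hA S hS) (c S) (hc S hS).1)
      hG0 hO0
      (fun S hS S' hS' hSS => tt N z X hN (by omega) hz5 hXθ lam hlam S S' (hA S hS) (hA S' hS')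
        (hdis S hS S' hS' hSS) (c S) (c S') (hc S hS).1 (hc S' hS').1)
    have hFsQ : ∑ p ∈ (Icc 1 N).filter (fun p => p.Prime ∧ z < p), f p ^ 2 ≤ Q2 f N := by
      unfold Q2
      apply sum_le_sum_of_subset_of_nonneg
      · intro p hp
        rw [mem_filter] at hp ⊢
        exact ⟨hp.1, hp.2.1⟩
      · intro p _ _
        exact sq_nonneg _
    have hFsx : ∑ p ∈ (Icc 1 N).filter (fun p => p.Prime ∧ z < p), f p ^ 2 ≤ (N : ℝ) := by
      have h1 : ∑ p ∈ (Icc 1 N).filter (fun p => p.Prime ∧ z < p), f p ^ 2 ≤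
          ∑ p ∈ (Icc 1 N).filter (fun p => p.Prime ∧ z < p), (1 : ℝ) := by
        apply sum_le_sum
        intro p _
        rw [← sq_abs]
        exact pow_le_one₀ (abs_nonneg _) (hf p)
      refine h1.trans ?_
      rw [sum_const, nsmul_eq_mul, mul_one]
      have h2 := card_filter_le (Icc 1 N) (fun p => p.Prime ∧ z < p)
      rw [Nat.card_Icc] at h2
      exact_mod_cast (by omega : ((Icc 1 N).filter (fun p => p.Prime ∧ z < p)).card ≤ N)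
    have hE : C3 * (z + X + (N : ℝ) ^ (1 - ε / 2)) ≤ 3 * C3 * (N : ℝ) ^ (1 - n2) := by
      have h1 : (z : ℝ) ≤ (N : ℝ) ^ (1 - n2) :=
        hz4.trans (Real.rpow_le_rpow_of_exponent_le hN1 (by linarith))
      have h2 : (X : ℝ) ≤ (N : ℝ) ^ (1 - n2) :=
        hXN'.trans (Real.rpow_le_rpow_of_exponent_le hN1 (by linarith))
      have h3 : (N : ℝ) ^ (1 - ε / 2) ≤ (N : ℝ) ^ (1 - n2) :=
        Real.rpow_le_rpow_of_exponent_le hN1 (by linarith)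
      nlinarith
    have hE0 : 0 ≤ C3 * (z + X + (N : ℝ) ^ (1 - ε / 2)) := by positivity
    obtain ⟨E, hEe⟩ : ∃ E : ℝ, E = C3 * (z + X + (N : ℝ) ^ (1 - ε / 2)) := ⟨_, rfl⟩
    have hSa : ∑ S ∈ A, (∑ d ∈ T S, |DK k f N S d|) ^ 2 ≤
        2 * (∑ S ∈ A, (∑ p ∈ (Icc 1 N).filter (fun p => p.Prime ∧ z < p),
          f p * (fun (S : Finset (ℤ × ℕ)) (n : ℤ) => rK k (c S) X S n) S p) ^ 2) +
          2 * A.card * E ^ 2 := by
      calc ∑ S ∈ A, (∑ d ∈ T S, |DK k f N S d|) ^ 2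
          ≤ ∑ S ∈ A, (2 * (∑ p ∈ (Icc 1 N).filter (fun p => p.Prime ∧ z < p),
              f p * (fun (S : Finset (ℤ × ℕ)) (n : ℤ) => rK k (c S) X S n) S p) ^ 2 +
                2 * E ^ 2) := by
            refine sum_le_sum fun S hS => ?_
            have h1 := (hc S hS).2
            rw [← hEe] at h1
            have h2 : (∑ d ∈ T S, |DK k f N S d|) ^ 2 ≤
                (|∑ p ∈ (Icc 1 N).filter (fun p => p.Prime ∧ z < p), f p * rK k (c S) X S p| +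
                  E) ^ 2 :=
              pow_le_pow_left₀ (sum_nonneg fun d _ => abs_nonneg _) h1 2
            exact h2.trans (BX.TaskBK.two_sq _ _)
        _ = _ := by
            rw [sum_add_distrib, ← mul_sum, sum_const, nsmul_eq_mul]
            ring
    have hfin := Pool.Agent.W74.SG.TaskBLF.num hNr rfl he0 hC1 hC2 hC3 hη1 (by linarith)
      (Nat.cast_nonneg A.card) hlz (sum_nonneg fun p _ => sq_nonneg _) hFsQ hFsx rfl rfl hdu
      (hEe ▸ hE0) (hEe ▸ hE) hSa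
    refine hfin.trans ?_
    have hpos : (0 : ℝ) ≤ Q2 f N * (N / Real.log N) + A.card * (N : ℝ) ^ (2 - η) := by positivity
    have hM5 : (0 : ℝ) ≤ 4 * Ck k ε ^ 2 * (M : ℝ) ^ 4 := by positivity
    have h7 := mul_nonneg hM5 hpos
    rw [add_mul (50 * C2 * (2 / e0) + 50 * C1 + 18 * C3 ^ 2)]
    exact le_add_of_nonneg_right h7

end Pool.Agent.W363.KT
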